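import Pool.Agent.V5helper98.Cyc4

/-!
# Peres' cutoff conjecture fails for convolution walks on cycles

For every sequence `n_k → ∞` there are symmetric probability measures `μ_k` on `ℤ/n_k` whose
convolution walks are ergodic and satisfy `T_rel / T_mix(1/2) → 0`, but have no cutoff.
-/

set_option autoImplicit false
open Finset Filter Topology
open Pool.Agent.V5helper98.CycDefs

namespace Pool.Agent.Results.MP_ee50b4_pr.CycleWalksNoCutoff

open Pool.Agent.V5helper98.Cyc1 Pool.Agent.V5helper98.Cyc2 Pool.Agent.V5helper98.Cyc3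
  Pool.Agent.V5helper98.Cyc4

/-- Let `n_k → ∞` be any sequence of integers `≥ 2`. There are symmetric probability measures `μ_k`
on `ℤ/n_k` whose convolution walks are ergodic (the support lies in no coset of a proper
subgroup) with the following properties: the relaxation times are at most `2`; the mixing times
`T_mix(ε)` are attained and tend to infinity for every `0 < ε < 1`, so that the product condition
`T_rel / T_mix(1/2) → 0` holds; `T_mix(ε) / T_mix(1 - ε) → log ε / log (1 - ε)` for every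
`0 < ε < 1`, which is not `1` for `ε ≠ 1/2`, so that there is no total variation cutoff. -/
theorem result (n : ℕ → ℕ) [∀ k, NeZero (n k)] (h2 : ∀ k, 2 ≤ n k) (hn : Tendsto n atTop atTop) :
    ∃ μ : ∀ k, ZMod (n k) → ℝ,
      (∀ k, IsProb (μ k) ∧ (∀ x, μ k (-x) = μ k x) ∧ Ergodic (μ k)) ∧
      (∀ k, 0 < trel (μ k) ∧ trel (μ k) ≤ 2) ∧
      (∀ ε : ℝ, 0 < ε → ε < 1 → (∀ k, tv (μ k) (tmix (μ k) ε) ≤ ε) ∧
        Tendsto (fun k => (tmix (μ k) ε : ℝ)) atTop atTop) ∧
      Tendsto (fun k => trel (μ k) / (tmix (μ k) (1 / 2) : ℝ)) atTop (𝓝 0) ∧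
      (∀ ε : ℝ, 0 < ε → ε < 1 →
        Tendsto (fun k => (tmix (μ k) ε : ℝ) / (tmix (μ k) (1 - ε) : ℝ)) atTop
          (𝓝 (Real.log ε / Real.log (1 - ε)))) ∧
      ¬ HasCutoff n μ := by
  choose ν hν1 hν2 hν3 hν4 using fun k => exists_base (n := n k) (h2 k)
  choose S hS1 hS2 using hν3
  -- the parameters
  set T : ℕ → ℕ := fun k => TT (n k) with hT
  have hTt : Tendsto T atTop atTop := TT_tendsto.comp hn
  have hTR : Tendsto (fun k => (T k : ℝ)) atTop atTop := tendsto_natCast_atTop_atTop.comp hTt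
  set e : ℕ → ℝ := fun k => 1 / Real.sqrt ((T k : ℝ) + 4) with he
  have hsq : ∀ k, 2 ≤ Real.sqrt ((T k : ℝ) + 4) := by
    intro k
    have h4 : (4 : ℝ) ≤ (T k : ℝ) + 4 := by
      have : (0 : ℝ) ≤ T k := Nat.cast_nonneg _
      linarith
    calc (2 : ℝ) = Real.sqrt 4 := by
          rw [show (4 : ℝ) = 2 ^ 2 by norm_num, Real.sqrt_sq (by norm_num)]
      _ ≤ _ := Real.sqrt_le_sqrt h4
  have he0 : ∀ k, 0 < e k := fun k => by
    have := hsq k
    simp only [he]
    positivity
  have he1 : ∀ k, e k < 1 := fun k => by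
    have := hsq k
    simp only [he]
    rw [div_lt_one (by linarith)]
    linarith
  have hT4 : Tendsto (fun k => Real.sqrt ((T k : ℝ) + 4)) atTop atTop :=
    Real.tendsto_sqrt_atTop.comp (tendsto_atTop_add_const_right _ _ hTR)
  have het : Tendsto e atTop (𝓝 0) := by
    have := hT4.inv_tendsto_atTop
    refine this.congr fun k => ?_
    simp only [he, Pi.inv_apply, one_div]
  have heT : Tendsto (fun k => e k * T k) atTop atTop := by
    have h5 : Tendsto (fun k => Real.sqrt ((T k : ℝ) + 4) - 2) atTop atTop :=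
      tendsto_atTop_add_const_right _ _ hT4
    refine tendsto_atTop_mono (fun k => ?_) h5
    have h6 := hsq k
    have h7 : Real.sqrt ((T k : ℝ) + 4) * Real.sqrt ((T k : ℝ) + 4) = (T k : ℝ) + 4 :=
      Real.mul_self_sqrt (by positivity)
    simp only [he]
    rw [one_div, inv_mul_eq_div, le_div_iff₀ (by linarith)]
    nlinarith
  set s : ℕ → ℝ := fun k => 1 - 1 / Real.sqrt (n k : ℝ) with hs
  have hst : Tendsto s atTop (𝓝 1) := by
    have h5 : Tendsto (fun k => Real.sqrt (n k : ℝ)) atTop atTop :=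
      Real.tendsto_sqrt_atTop.comp (tendsto_natCast_atTop_atTop.comp hn)
    have h6 := h5.inv_tendsto_atTop.const_sub 1
    rw [sub_zero] at h6
    refine h6.congr fun k => ?_
    simp only [hs, Pi.inv_apply, one_div]
  have hsT : ∀ k, ∀ t ≤ T k, s k ≤ tv (ν k) t := fun k t ht =>
    tv_base_lower (h2 k) (ν k) (hν1 k) (S k) (hS1 k) (hS2 k) t ht
  have hmain : ∀ d : ℝ, 0 < d → d < 1 →
      Tendsto (fun k => (-Real.log (1 - e k)) * (tmix (mix (e k) (ν k)) d : ℝ)) atTop
        (𝓝 (-Real.log d)) := fun d hd0 hd1 =>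
    tmix_tendsto n ν hν1 e he0 he1 het T heT s hst hsT d hd0 hd1
  have ha0 : ∀ k, 0 < -Real.log (1 - e k) := by
    intro k
    have := Real.log_neg (show 0 < 1 - e k by linarith [he1 k]) (by linarith [he0 k])
    linarith
  have hal : Tendsto (fun k => -Real.log (1 - e k)) atTop (𝓝 0) := by
    have h2 : Tendsto (fun k => 1 - e k) atTop (𝓝 1) := by
      have := het.const_sub 1
      simpa using this
    have h3 := (Real.continuousAt_log (one_ne_zero)).tendsto.comp h2
    rw [Real.log_one] at h3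
    simpa using h3.neg
  have htr : ∀ k, 0 ≤ trel (mix (e k) (ν k)) ∧ trel (mix (e k) (ν k)) ≤ 2 := fun k =>
    trel_bound (h2 k) (e k) (he0 k) (he1 k) (ν k) (hν4 k)
  have hlogneg : ∀ d : ℝ, 0 < d → d < 1 → 0 < -Real.log d := by
    intro d hd0 hd1
    have := Real.log_neg hd0 hd1
    linarith
  have hratio : ∀ ε : ℝ, 0 < ε → ε < 1 →
      Tendsto (fun k => (tmix (mix (e k) (ν k)) ε : ℝ) / (tmix (mix (e k) (ν k)) (1 - ε) : ℝ)) atTop
        (𝓝 (Real.log ε / Real.log (1 - ε))) := by
    intro ε h0 h1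
    have h3 := (hmain ε h0 h1).div (hmain (1 - ε) (by linarith) (by linarith))
      (hlogneg (1 - ε) (by linarith) (by linarith)).ne'
    rw [neg_div_neg_eq] at h3
    refine h3.congr fun k => ?_
    exact mul_div_mul_left _ _ (ha0 k).ne'
  refine ⟨fun k => mix (e k) (ν k), fun k => ⟨isProb_mix (e k) (he0 k).le (he1 k).le _ (hν1 k),
    fun x => ?_, ergodic_mix (e k) (he0 k) (he1 k).le _ (hν1 k)⟩, fun k => ⟨?_, (htr k).2⟩,
    fun ε h0 h1 => ⟨fun k => (tmix_le (e k) (he0 k) (he1 k) (ν k) (hν1 k) ε h0 h1).1, ?_⟩, ?_,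
    hratio, ?_⟩
  · simp only [mix, hν2 k x]
  · have hge : 0 < gap (mix (e k) (ν k)) := by
      unfold gap
      have : Nonempty {j : ZMod (n k) // j ≠ 0} := by
        have : Fact (1 < n k) := ⟨by have := h2 k; omega⟩
        exact ⟨⟨1, one_ne_zero⟩⟩
      have : (⨆ j : {j : ZMod (n k) // j ≠ 0}, ‖hat (mix (e k) (ν k)) j‖) ≤ 1 / 2 := by
        refine ciSup_le fun j => ?_
        rw [hat_mix (e k) (ν k) j j.2, norm_mul, Complex.norm_real, Real.norm_eq_abs,
          abs_of_nonneg (by linarith [he1 k])]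
        have := hν4 k j j.2
        have h3 : 0 ≤ ‖hat (ν k) j‖ := norm_nonneg _
        nlinarith [he0 k]
      linarith
    unfold trel
    positivity
  · have h3 : Tendsto (fun k => ((-Real.log (1 - e k)))⁻¹) atTop atTop := by
      refine Tendsto.inv_tendsto_nhdsGT_zero ?_
      rw [tendsto_nhdsWithin_iff]
      exact ⟨hal, Eventually.of_forall fun k => ha0 k⟩
    have h4 := h3.atTop_mul_pos (hlogneg ε h0 h1) (hmain ε h0 h1)
    refine h4.congr fun k => ?_
    exact inv_mul_cancel_left₀ (ha0 k).ne' _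
  · have h3 : Tendsto (fun k => (-Real.log (1 - e k)) * trel (mix (e k) (ν k))) atTop (𝓝 0) := by
      have h4 : Tendsto (fun k => (-Real.log (1 - e k)) * 2) atTop (𝓝 0) := by
        simpa using hal.mul_const 2
      refine squeeze_zero (fun k => mul_nonneg (ha0 k).le (htr k).1) (fun k => ?_) h4
      exact mul_le_mul_of_nonneg_left (htr k).2 (ha0 k).le
    have h5 := h3.div (hmain (1 / 2) (by norm_num) (by norm_num))
      (hlogneg (1 / 2) (by norm_num) (by norm_num)).ne'
    rw [zero_div] at h5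
    refine h5.congr fun k => ?_
    exact mul_div_mul_left _ _ (ha0 k).ne'
  · intro hcut
    have h3 := hcut (1 / 4) (by norm_num) (by norm_num)
    have h4 := hratio (1 / 4) (by norm_num) (by norm_num)
    have h5 := tendsto_nhds_unique h3 h4
    have h6 : Real.log (1 - 1 / 4) < 0 := Real.log_neg (by norm_num) (by norm_num)
    rw [eq_div_iff h6.ne, one_mul] at h5
    have h7 : Real.log (1 / 4) < Real.log (1 - 1 / 4) :=
      Real.log_lt_log (by norm_num) (by norm_num)
    linarith

end Pool.Agent.Results.MP_ee50b4_pr.CycleWalksNoCutoff
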